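import Pool.Agent.KTK.Stmts2

/-!
# Row QKB of KTK (MP_b2962a_an): the quantitative Katok step for bg
-/

set_option autoImplicit false

namespace Pool.Agent.KTK.H46

open Pool.Agent.PRT
open scoped ContDiff

theorem qkb (hA : MxaStmt) (hB : MxbStmt) (hQ : QkaStmt) : QkbStmt := by
  intro F hF hP
  obtain ⟨-, hex, hpos, hsub⟩ := hA F hF
  obtain ⟨-, hbpos, -, hmb, -⟩ := hB F hF
  obtain ⟨C', hC1, hC'⟩ := hQ F hF hP
  have h0 : mg F 0 ≤ 0 := by
    obtain ⟨z, hz⟩ := hex 0
    have h1 : ‖fderiv ℝ (F^[0]) z‖ ≤ 1 := by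
      have h2 : fderiv ℝ (F^[0]) z = ContinuousLinearMap.id ℝ E := by
        rw [Function.iterate_zero]
        exact fderiv_id
      rw [h2]
      exact ContinuousLinearMap.norm_id_le
    rw [hz] at h1
    exact Real.exp_le_one_iff.1 h1
  have hlin : ∀ l : ℕ, mg F l ≤ l * mg F 1 := by
    intro l
    induction l with
    | zero => simpa using h0
    | succ l ih =>
      have h1 := hsub l 1
      push_cast
      linarith
  refine ⟨C' + 1 + mg F 1, by linarith [hpos 1], ?_⟩
  intro m n hm hn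
  have hm0 : (0 : ℝ) < m := by exact_mod_cast hm
  have hm1 : (1 : ℝ) ≤ m := by exact_mod_cast hm
  have hn0 : (0 : ℝ) < n := lt_of_lt_of_le (Real.exp_pos _) hn
  have hRb : 0 ≤ (1 - 1 / 2000 : ℝ) * (bg F m / m) :=
    mul_nonneg (by norm_num) (div_nonneg (hbpos m) hm0.le)
  obtain ⟨l, hl, hle⟩ := Finset.exists_mem_eq_sup' (s := Finset.range (n + 1))
    ⟨0, Finset.mem_range.2 (Nat.succ_pos n)⟩ (mg F)
  have hbg : bg F n = mg F l := hle
  rw [hbg]
  have hln : l ≤ n := Nat.lt_succ_iff.1 (Finset.mem_range.1 hl)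
  have hlnR : (l : ℝ) ≤ n := by exact_mod_cast hln
  by_cases hc : Real.exp (C' * m) ≤ l
  · have hl0 : (0 : ℝ) < l := lt_of_lt_of_le (Real.exp_pos _) hc
    have h1 := hC' m l hm hc
    set X : ℝ := (1 - 1 / 2000) * (mg F m / m) + C' / m with hX
    have hX0 : 0 ≤ X := by
      have h2 : 0 ≤ (1 - 1 / 2000 : ℝ) * (mg F m / m) :=
        mul_nonneg (by norm_num) (div_nonneg (hpos m) hm0.le)
      have h3 : 0 ≤ C' / m := div_nonneg (by linarith) hm0.le
      linarith
    have h2 : mg F l ≤ X * l := (div_le_iff₀ hl0).1 h1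
    have h3 : mg F l ≤ X * n := le_trans h2 (mul_le_mul_of_nonneg_left hlnR hX0)
    have h4 : mg F l / n ≤ X := (div_le_iff₀ hn0).2 h3
    have h5 : mg F m / m ≤ bg F m / m := div_le_div_of_nonneg_right (hmb m m le_rfl) hm0.le
    have h6 : C' / m ≤ (C' + 1 + mg F 1) / m :=
      div_le_div_of_nonneg_right (by linarith [hpos 1]) hm0.le
    have h7 : (1 - 1 / 2000 : ℝ) * (mg F m / m) ≤ (1 - 1 / 2000) * (bg F m / m) :=
      mul_le_mul_of_nonneg_left h5 (by norm_num)
    linarith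
  · have hc' : (l : ℝ) < Real.exp (C' * m) := not_le.1 hc
    have h1 : mg F l ≤ Real.exp (C' * m) * mg F 1 :=
      le_trans (hlin l) (mul_le_mul_of_nonneg_right hc'.le (hpos 1))
    have h2 : Real.exp (C' * m) * m ≤ n := by
      refine le_trans ?_ hn
      have h3 : (C' + 1 + mg F 1) * m = C' * m + (m + mg F 1 * m) := by ring
      rw [h3, Real.exp_add]
      refine mul_le_mul_of_nonneg_left ?_ (Real.exp_pos _).le
      have h4 : (m : ℝ) + mg F 1 * m + 1 ≤ Real.exp (m + mg F 1 * m) := Real.add_one_le_exp _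
      have h5 : 0 ≤ mg F 1 * m := mul_nonneg (hpos 1) hm0.le
      linarith
    have h3 : mg F l * m ≤ (C' + 1 + mg F 1) * n := by
      calc mg F l * m ≤ Real.exp (C' * m) * mg F 1 * m :=
            mul_le_mul_of_nonneg_right h1 hm0.le
        _ = mg F 1 * (Real.exp (C' * m) * m) := by ring
        _ ≤ mg F 1 * n := mul_le_mul_of_nonneg_left h2 (hpos 1)
        _ ≤ (C' + 1 + mg F 1) * n := mul_le_mul_of_nonneg_right (by linarith) hn0.le
    have h4 : mg F l / n ≤ (C' + 1 + mg F 1) / m := by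
      rw [div_le_div_iff₀ hn0 hm0]
      exact h3
    linarith

end Pool.Agent.KTK.H46
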